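import Pool.Agent.H64.EP.Targets

set_option autoImplicit false

open Finset
open scoped Classical

namespace Pool.Agent.H6.EP.KK

open Pool.Agent.H64.EP

lemma bern (r k : ℕ) :
    (((2 * r + 1 : ℕ) : ℝ)⁻¹) ^ k * ((2 * r + 1 : ℕ) : ℝ) ^ (2 * r * k) ≤
      (((2 * r + 1 : ℕ) : ℝ) - 1) ^ (2 * r * k) := by
  have hR : (0 : ℝ) < ((2 * r + 1 : ℕ) : ℝ) := by positivity
  have hb : (((2 * r + 1 : ℕ) : ℝ))⁻¹ * ((2 * r + 1 : ℕ) : ℝ) ^ (2 * r) ≤
      (((2 * r + 1 : ℕ) : ℝ) - 1) ^ (2 * r) := by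
    have h1 := one_add_mul_le_pow (a := -(((2 * r + 1 : ℕ) : ℝ))⁻¹) (by
      have : (((2 * r + 1 : ℕ) : ℝ))⁻¹ ≤ 1 := by
        apply inv_le_one_of_one_le₀
        push_cast
        linarith [Nat.cast_nonneg (α := ℝ) r]
      linarith) (2 * r)
    have h2 : 1 + ((2 * r : ℕ) : ℝ) * -(((2 * r + 1 : ℕ) : ℝ))⁻¹ = (((2 * r + 1 : ℕ) : ℝ))⁻¹ := by
      field_simp
      push_cast
      ring
    rw [h2] at h1
    have h3 : (((2 * r + 1 : ℕ) : ℝ) - 1) ^ (2 * r) =
        (1 + -(((2 * r + 1 : ℕ) : ℝ))⁻¹) ^ (2 * r) * ((2 * r + 1 : ℕ) : ℝ) ^ (2 * r) := by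
      rw [← mul_pow]
      congr 1
      field_simp
      ring
    rw [h3]
    exact mul_le_mul_of_nonneg_right h1 (by positivity)
  have h4 := pow_le_pow_left₀ (by positivity) hb k
  rw [mul_pow, ← pow_mul, ← pow_mul] at h4
  exact h4

lemma card_le {k : ℕ} (i : Fin k) :
    ((univ : Finset (Sym2 (Fin k))).filter (fun e => i ∈ e)).card ≤ k := by
  have h : ((univ : Finset (Sym2 (Fin k))).filter (fun e => i ∈ e)) ⊆
      (univ : Finset (Fin k)).image (fun l => s(i, l)) := by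
    intro e he
    obtain ⟨l, hl⟩ := (Finset.mem_filter.mp he).2
    exact Finset.mem_image.mpr ⟨l, Finset.mem_univ _, hl.symm⟩
  refine (Finset.card_le_card h).trans (Finset.card_image_le.trans ?_)
  simp

lemma prod_mem {k : ℕ} (i : Fin k) (x : ℝ) (h0 : 0 ≤ x) (h1 : x ≤ 1) :
    x ^ k ≤ ∏ e : Sym2 (Fin k), (if i ∈ e then x else 1) := by
  rw [← Finset.prod_filter, Finset.prod_const]
  exact pow_le_pow_of_le_one h0 h1 (card_le i)

theorem pf_KK : T_KK := by
  intro k r hr hk i j hij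
  have hR : (0 : ℝ) < ((2 * r + 1 : ℕ) : ℝ) := by positivity
  have hR1 : (0 : ℝ) < ((2 * r + 1 : ℕ) : ℝ) - 1 := by
    push_cast
    have : (1 : ℝ) ≤ r := by exact_mod_cast hr
    linarith
  have hL : (0 : ℝ) < ((2 * r * k : ℕ) : ℝ) := by
    have : 0 < 2 * r * k := by positivity
    exact_mod_cast this
  refine ⟨fun z x => ?_, ?_, ?_⟩
  · have h1 : ∀ e : Sym2 (Fin k), ker j e i (z e) (x e) =
        (if rel i j e (x e) (z e) then (1 : ℝ) else 0) / cnt (2 * r * k) (2 * r + 1) i j e := by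
      intro e
      rw [ker, if_neg hij]
    simp_rw [h1]
    rw [Finset.prod_div_distrib]
    congr 1
    by_cases h : adj (i, x) (j, z)
    · rw [if_pos h]
      exact Finset.prod_eq_one fun e _ => if_pos (h.2 e)
    · rw [if_neg h]
      have h2 : ∃ e, ¬ rel i j e (x e) (z e) := by
        by_contra hcon
        push Not at hcon
        exact h ⟨hij, hcon⟩
      obtain ⟨e, he⟩ := h2
      exact Finset.prod_eq_zero (Finset.mem_univ e) (if_neg he)
  · refine Finset.prod_pos fun e _ => ?_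
    unfold cnt
    split_ifs <;> positivity
  · have hinv0 : (0 : ℝ) ≤ (((2 * r + 1 : ℕ) : ℝ))⁻¹ := by positivity
    have hinv1 : (((2 * r + 1 : ℕ) : ℝ))⁻¹ ≤ 1 := by
      apply inv_le_one_of_one_le₀
      push_cast
      linarith [Nat.cast_nonneg (α := ℝ) r]
    have hcard : (Fintype.card (Dat k (2 * r * k) (2 * r + 1)) : ℝ) =
        ∏ _e : Sym2 (Fin k), (((2 * r * k : ℕ) : ℝ) * ((2 * r + 1 : ℕ) : ℝ) *
          ((2 * r + 1 : ℕ) : ℝ) ^ (2 * r * k)) := by
      rw [Finset.prod_const, Finset.card_univ]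
      simp [Fintype.card_prod, Fintype.card_pi]
    have hpt : ∀ e : Sym2 (Fin k),
        (((2 * r * k : ℕ) : ℝ) * ((2 * r + 1 : ℕ) : ℝ) * ((2 * r + 1 : ℕ) : ℝ) ^ (2 * r * k)) *
          ((if i ∈ e then (((2 * r + 1 : ℕ) : ℝ))⁻¹ else 1) *
          (if j ∈ e then (((2 * r + 1 : ℕ) : ℝ))⁻¹ else 1) *
          (if e = s(i, j) then ((((2 * r + 1 : ℕ) : ℝ))⁻¹) ^ k else 1)) ≤
        cnt (2 * r * k) (2 * r + 1) i j e := by
      intro e
      unfold cnt
      by_cases hi : i ∈ e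
      · by_cases hj : j ∈ e
        · have he : e = s(i, j) := (Sym2.mem_and_mem_iff hij).mp ⟨hi, hj⟩
          rw [if_pos hi, if_pos hj, if_pos he, if_pos hi, if_pos hj]
          have h1 := bern r k
          have h2 : (((2 * r * k : ℕ) : ℝ) * ((2 * r + 1 : ℕ) : ℝ) *
              ((2 * r + 1 : ℕ) : ℝ) ^ (2 * r * k)) *
              ((((2 * r + 1 : ℕ) : ℝ))⁻¹ * (((2 * r + 1 : ℕ) : ℝ))⁻¹ *
                ((((2 * r + 1 : ℕ) : ℝ))⁻¹) ^ k) =
              (((2 * r * k : ℕ) : ℝ) * ((2 * r + 1 : ℕ) : ℝ)) *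
              ((((2 * r + 1 : ℕ) : ℝ))⁻¹ * (((2 * r + 1 : ℕ) : ℝ))⁻¹) *
              (((((2 * r + 1 : ℕ) : ℝ))⁻¹) ^ k * ((2 * r + 1 : ℕ) : ℝ) ^ (2 * r * k)) := by
            ring
          rw [h2]
          have h3 : (((2 * r * k : ℕ) : ℝ) * ((2 * r + 1 : ℕ) : ℝ)) *
              ((((2 * r + 1 : ℕ) : ℝ))⁻¹ * (((2 * r + 1 : ℕ) : ℝ))⁻¹) ≤
              ((2 * r * k : ℕ) : ℝ) * ((2 * r + 1 : ℕ) : ℝ) := by
            apply mul_le_of_le_one_right (by positivity)
            exact mul_le_one₀ hinv1 hinv0 hinv1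
          exact mul_le_mul h3 h1 (by positivity) (by positivity)
        · have he : e ≠ s(i, j) := by
            rintro rfl
            exact hj (Sym2.mem_mk_right i j)
          rw [if_pos hi, if_neg hj, if_neg he, if_pos hi, if_neg hj]
          apply le_of_eq
          field_simp
      · have he : e ≠ s(i, j) := by
          rintro rfl
          exact hi (Sym2.mem_mk_left i j)
        by_cases hj : j ∈ e
        · rw [if_neg hi, if_pos hj, if_neg he, if_neg hi, if_pos hj]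
          apply le_of_eq
          field_simp
        · rw [if_neg hi, if_neg hj, if_neg he, if_neg hi, if_neg hj]
          apply le_of_eq
          ring
    have hprod := Finset.prod_le_prod (s := (univ : Finset (Sym2 (Fin k))))
      (f := fun e => (((2 * r * k : ℕ) : ℝ) * ((2 * r + 1 : ℕ) : ℝ) *
          ((2 * r + 1 : ℕ) : ℝ) ^ (2 * r * k)) *
          ((if i ∈ e then (((2 * r + 1 : ℕ) : ℝ))⁻¹ else 1) *
          (if j ∈ e then (((2 * r + 1 : ℕ) : ℝ))⁻¹ else 1) *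
          (if e = s(i, j) then ((((2 * r + 1 : ℕ) : ℝ))⁻¹) ^ k else 1)))
      (g := fun e => cnt (2 * r * k) (2 * r + 1) i j e)
      (fun e _ => by split_ifs <;> positivity) (fun e _ => hpt e)
    refine le_trans ?_ hprod
    have hsplit : ∀ (c : ℝ) (f g h : Sym2 (Fin k) → ℝ), ∏ e, c * (f e * g e * h e) =
        (∏ _e : Sym2 (Fin k), c) * ((∏ e, f e) * (∏ e, g e) * ∏ e, h e) := by
      intro c f g h
      rw [Finset.prod_mul_distrib, Finset.prod_mul_distrib, Finset.prod_mul_distrib]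
    rw [hsplit, ← hcard,
      Finset.prod_ite_eq' (univ : Finset (Sym2 (Fin k))) s(i, j), if_pos (Finset.mem_univ _)]
    rw [div_eq_mul_inv]
    refine mul_le_mul_of_nonneg_left ?_ (Nat.cast_nonneg _)
    have e1 : (((2 * r + 1 : ℕ) : ℝ) ^ (3 * k))⁻¹ =
        ((((2 * r + 1 : ℕ) : ℝ))⁻¹) ^ k * ((((2 * r + 1 : ℕ) : ℝ))⁻¹) ^ k *
          ((((2 * r + 1 : ℕ) : ℝ))⁻¹) ^ k := by
      rw [← inv_pow, ← pow_add, ← pow_add]
      congr 1
      ring
    rw [e1]
    refine mul_le_mul_of_nonneg_right ?_ (by positivity)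
    exact mul_le_mul (prod_mem i _ hinv0 hinv1) (prod_mem j _ hinv0 hinv1) (by positivity)
      (Finset.prod_nonneg fun e _ => by split_ifs <;> positivity)

end Pool.Agent.H6.EP.KK
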